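import Pool.Agent.H956GW.Model

/-!
# A closed symplectic manifold whose Gromov–Witten variation is not algebro-geometric

`V = Γ₀ \ G` is the 6-dimensional nilmanifold of the nilpotent Lie group `G` with left-invariant
1-forms `e₀, …, e₅` and `de₀ = de₁ = 0`, `deₖ = e₀ ∧ eₖ₋₁` (`2 ≤ k ≤ 5`). It is parallelizable,
aspherical, and symplectic with the invariant form `ω = e₀e₅ + e₁e₄ - e₂e₃`; its first Chern class
vanishes. By Nomizu's theorem its even cohomology ring is the even cohomology of the complex of
invariant forms. Since `π₂(V) = 0`, its genus-zero Gromov–Witten invariants in classes `β ≠ 0`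
vanish.
-/

namespace Pool.Agent.Results.MP_a4dd1d_ag.NilmanifoldCounterexample

open H956GW

theorem result.{u₁, u₂, u₃, u₄} :
    -- there are an algebra `L` of invariant forms (an exterior algebra on six generators) and an
    -- even cohomology ring `H` of `V` in which the cube of the class of `ω` is nonzero and
    -- Poincaré duality holds, and
    ∃ (L : Type) (_ : Ring L) (_ : Algebra ℂ L) (ι : OneForms →ₗ[ℂ] L) (H : Type)
      (_ : CommRing H) (_ : Algebra ℂ H) (V : NilmanifoldCohomology ι H),
      IsExteriorAlgebra ι ∧ V.integral (V.symplecticClass ^ 3) ≠ 0 ∧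
      (∀ u : H, (∀ v : H, V.integral (u * v) = 0) → u = 0) ∧
      -- for genus-zero Gromov–Witten numbers `g` of an aspherical manifold, for the connection form
      -- `A` that their pre-potential defines over `H²(V, ℂ)`, in linear coordinates `c` on
      -- `H²(V, ℂ)`, and for any point `t₀`,
      ∀ (B : Type) [AddCommGroup B] (g : GWNumbers B H), g.IsAspherical V.integral →
      ∀ A : H → H → H → H, IsGWConnection V.integral (V.deg 1) g.prepotential A →
      ∀ (S : Type) [NormedAddCommGroup S] [NormedSpace ℂ S] (c : S ≃ₗ[ℂ] V.deg 1) (t₀ : S),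
        -- the variation with fibre `H^even(V, ℂ)`, connection `d + A` and the filtration by degree
        -- is not, near `t₀`, equivalent to a subquotient of a semisimple variation
        ¬ IsLocallySubquotientOfSemisimple.{u₁, u₂, u₃, u₄} (fun t v h => A (c t) (c v) h)
          V.filtration t₀ := by
  refine ⟨Forms, inferInstance, inferInstance, ExteriorAlgebra.ι ℂ, Hev, inferInstance,
    inferInstance, model, isExteriorAlgebra_ι, ?_, eq_zero_of_integral_mul, ?_⟩
  · rw [model_symplecticClass]; exact integral_ω3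
  rintro B _ g hg A hA S _ _ c' t₀
    ⟨G, _, _, M, _, _, _, _, Γ, _, _, E, _, _, E', _, _, X, Y, m₀, hX, hY, hloc⟩
  have : FiniteDimensional ℂ E' := by
    obtain ⟨-, T, -⟩ := hloc
    have : FiniteDimensional ℂ Closed := inferInstanceAs
      (FiniteDimensional ℂ (Subalgebra.toSubmodule Closed))
    have : FiniteDimensional ℂ Hev := Module.Finite.of_surjective cls.toLinearMap cls_surjective
    exact LinearEquiv.finiteDimensional (T t₀)
  let c : S →ₗ[ℂ] Hev := (model.deg 1).subtype ∘ₗ c'.toLinearMap
  have hc' : ∀ v, c v ∈ model.deg 1 := fun v => (c' v).2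
  have hc : ∀ v, c v ∈ deg 1 := fun v => by rw [← model_deg]; exact hc' v
  have hcs : ∀ u ∈ deg 1, ∃ v, c v = u := by
    intro u hu
    have hu' : u ∈ model.deg 1 := by rw [model_deg]; exact hu
    refine ⟨c'.symm ⟨u, hu'⟩, ?_⟩
    change ((c' (c'.symm ⟨u, hu'⟩) : model.deg 1) : Hev) = u
    rw [c'.apply_symm_apply]
  obtain ⟨w, hw⟩ := hcs _ cls_zω_mem
  have hI0 : ∀ v, ∀ k < 3, integral (c v ^ k) = 0 := fun v k hk =>
    integral_deg (by omega) (pow_mem_deg (hc v) k)
  have hI1 : ∀ v, ∀ k, 3 < k → c v ^ k = 0 := fun v k hk => deg_eq_bot hk (pow_mem_deg (hc v) k)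
  have hw3 : integral (c w ^ 3) ≠ 0 := by rw [hw]; exact integral_ω3
  have hb : cls z12 ∈ Algebra.adjoin ℂ (Set.range c) := by
    obtain ⟨v, hv⟩ := hcs _ cls_z12_mem
    rw [← hv]
    exact Algebra.subset_adjoin (Set.mem_range_self v)
  have hrange : ∀ y ∈ Set.range c, y ∈ deg 1 := by
    rintro _ ⟨v, rfl⟩
    exact hc v
  have hG : model.filtration = degFilt := funext model_filtration
  rw [hG] at hloc
  exact not_locallyEquivalent c integral 3 hI0 hI1 hw3 (cls z12) hb cls_z12_ne Set.univ _
    (fun t _ v h => connection_eq g hg eq_zero_of_integral_mul hA (hc' t) (hc' v) h) degFilt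
    degFilt_zero degFilt_four (fun a ha => adjoin_mul_z12 hrange ha) t₀ Y (hX.subquotient hY) m₀
    hloc

end Pool.Agent.Results.MP_a4dd1d_ag.NilmanifoldCounterexample
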